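import Pool.Agent.W973.IP.FDefs

namespace Pool.Agent.W490.IP

open Pool.Agent.W973.IP Pool.Agent.NPC Pool.Agent.NPC.ER Pool.Agent.NPC.H612

theorem sum_range_list (g : ℕ → ℝ) (n : ℕ) :
    ((List.range n).map g).sum = ∑ j ∈ Finset.range n, g j := by
  induction n with
  | zero => simp
  | succ n ih =>
    rw [List.range_succ, List.map_append, List.sum_append, Finset.sum_range_succ, ih]
    simp

theorem eval_XT (n : ℕ) (wn : ℕ → ℕ) (x : ℕ → ℝ) :
    (XT n wn).eval x = X (fun j : Fin n => x (wn j)) := by
  unfold XT X
  rw [eval_sumT, List.map_cons, List.sum_cons, List.map_map]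
  congr 1
  rw [sum_range_list, Fin.sum_univ_eq_sum_range (fun j => x (wn j) ^ 2) n]
  refine Finset.sum_congr rfl fun j _ => ?_
  simp only [Function.comp, Tm.eval]
  ring

theorem two_eval (x : ℕ → ℝ) : twoT.eval x = 2 := by
  simp only [Tm.eval, twoT]; norm_num

theorem rt_zero : rt 0 = 2 := by
  unfold rt
  rw [pow_zero, Real.rpow_one]

theorem rt_pos (t : ℕ) : 0 < rt t := Real.rpow_pos_of_pos (by norm_num) _

theorem rt_sq (t : ℕ) : rt (t + 1) * rt (t + 1) = rt t := by
  unfold rt
  rw [← Real.rpow_add (by norm_num)]
  congr 1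
  rw [pow_succ]
  ring

theorem chTT : S_CH := by
  refine ⟨?_, ?_, ?_, ?_⟩
  · intro n wn xn x
    unfold chX
    rw [holds_conj]
    simp only [List.forall_mem_cons, List.forall_mem_map, List.mem_range, Fm.Holds, Tm.eval,
      eval_XT]
    constructor
    · rintro ⟨h0, hs⟩ t
      induction t with
      | zero => intro _; rw [h0, pow_zero, pow_one]
      | succ t ih =>
        intro ht
        rw [hs t (by omega), ih (by omega), ← pow_add, pow_succ, mul_two]
    · intro h
      refine ⟨by rw [h 0 (by omega), pow_zero, pow_one], fun t ht => ?_⟩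
      rw [h (t + 1) (by omega), h t (by omega), ← pow_add, pow_succ, mul_two]
  · intro n xn dn x y hy
    unfold chD
    rw [holds_conj]
    simp only [List.forall_mem_cons, List.forall_mem_map, List.mem_range, Fm.Holds, Tm.eval,
      two_eval]
    have step : ∀ t, (2 : ℝ) * (y ^ 2 ^ t * (2 ^ t * y ^ (2 ^ t - 1))) =
        2 ^ (t + 1) * y ^ (2 ^ (t + 1) - 1) := by
      intro t
      have h1 : 2 ^ (t + 1) - 1 = 2 ^ t + (2 ^ t - 1) := by
        have h2 : 1 ≤ 2 ^ t := Nat.one_le_two_pow
        rw [pow_succ]
        omega
      rw [h1, pow_add y, pow_succ (2 : ℝ) t]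
      ring
    constructor
    · rintro ⟨h0, hs⟩ t
      induction t with
      | zero => intro _; rw [h0]; simp
      | succ t ih =>
        intro ht
        rw [hs t (by omega), ih (by omega), hy t (by omega), step]
    · intro h
      refine ⟨by rw [h 0 (by omega)]; simp, fun t ht => ?_⟩
      rw [h (t + 1) (by omega), h t (by omega), hy t (by omega), step]
  · intro n x
    unfold chY
    rw [holds_conj]
    simp only [List.forall_mem_cons, List.forall_mem_map, List.mem_range, Fm.Holds, Tm.eval,
      two_eval]
    constructor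
    · rintro ⟨h0, hs⟩ t
      induction t with
      | zero => intro _; rw [h0, rt_zero]
      | succ t ih =>
        intro ht
        obtain ⟨h1, h2⟩ := hs t (by omega)
        rw [ih (by omega), ← rt_sq t] at h1
        exact (mul_self_inj h2.le (rt_pos _).le).mp h1
    · intro h
      refine ⟨by rw [h 0 (by omega), rt_zero], fun t ht => ?_⟩
      rw [h (t + 1) (by omega), h t (by omega)]
      exact ⟨rt_sq t, rt_pos _⟩
  · intro m x
    unfold chT
    rw [holds_conj]
    simp only [List.forall_mem_map, List.mem_range, Fm.Holds, Tm.eval]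
    constructor
    · intro hs t
      induction t with
      | zero => intro _; rw [pow_zero, pow_one]
      | succ t ih =>
        intro ht
        rw [hs t (by omega), ih (by omega), ← pow_add, pow_succ 2 t, mul_two]
    · intro h t ht
      rw [h (t + 1) (by omega), h t (by omega), ← pow_add, pow_succ 2 t, mul_two]

end Pool.Agent.W490.IP
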